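import Mathlib
import Pool.Agent.U424.DQ.Stm
import Pool.Agent.N286.DC.ARI
import Pool.Agent.N353.PN.UN3

/-!
# The theorem of Hasse and Minkowski for diagonal forms in at least four variables (project DQ, part HMM)
-/

set_option autoImplicit false

namespace Pool.Agent.U113.DQ

open Pool.Agent.U424.DQ Pool.Agent.N718.DC Pool.Agent.N286.DC

/-- the local-global principle for conics without the place `q` -/
theorem sol_q (a b t : ℤ) (ha : a ≠ 0) (hb : b ≠ 0) (ht : t ≠ 0) (q : ℕ) (hq : q.Prime)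
    (hr : Sol (a : ℝ) (b : ℝ) (t : ℝ))
    (h : ∀ (p : ℕ) [Fact p.Prime], p ≠ q → Sol (a : ℚ_[p]) (b : ℚ_[p]) (t : ℚ_[p])) :
    Sol (a : ℚ) (b : ℚ) (t : ℚ) := by
  have hA : a * t ≠ 0 := mul_ne_zero ha ht
  have hB : b * t ≠ 0 := mul_ne_zero hb ht
  have hre : Pool.Agent.W313.BMX.Splits ((a * t : ℤ) : ℝ) ((b * t : ℤ) : ℝ) := by
    have := splits_of_sol (by exact_mod_cast ht) hr
    push_cast
    exact this
  have hloc : ∀ (p : ℕ) [Fact p.Prime], p ≠ q →
      Pool.Agent.W313.BMX.Splits ((a * t : ℤ) : ℚ_[p]) ((b * t : ℤ) : ℚ_[p]) := by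
    intro p hp hpq
    have := splits_of_sol (by exact_mod_cast ht) (h p hpq)
    push_cast
    exact this
  have hall : ∀ (p : ℕ) [Fact p.Prime],
      Pool.Agent.W313.BMX.Splits ((a * t : ℤ) : ℚ_[p]) ((b * t : ℤ) : ℚ_[p]) := by
    intro p hp
    by_cases hpq : p = q
    · subst hpq
      apply pf0 (a * t) (b * t) hA hB p hre
      intro p' hp' hne
      exact hloc p' hne
    · exact hloc p hpq
  have hQ := Pool.Agent.W174.HB.hm_ (a * t) (b * t) hA hB hre hall
  apply sol_of_splits (by exact_mod_cast ht)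
  push_cast at hQ
  exact hQ

theorem cast_cons {K : Type} [Field K] {n : ℕ} (a : ℤ) (C : Fin n → ℤ) :
    (fun l => (((Fin.cons a C : Fin (n + 1) → ℤ) l : ℤ) : K)) =
      (Fin.cons (a : K) (fun l => ((C l : ℤ) : K)) : Fin (n + 1) → K) := by
  funext l
  refine Fin.cases ?_ (fun i => ?_) l
  · simp
  · simp

theorem solM3 {K : Type} [Field K] (A : Fin 3 → K) : SolM A ↔ Sol (A 0) (A 1) (-(A 2)) := by
  constructor
  · rintro ⟨u, h0, h1⟩
    refine ⟨u 0, u 1, u 2, ?_, ?_⟩
    · by_contra hc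
      push Not at hc
      apply h0
      funext l
      fin_cases l
      · exact hc.1
      · exact hc.2.1
      · exact hc.2.2
    · rw [Fin.sum_univ_three] at h1
      linear_combination h1
  · rintro ⟨u, v, w, h0, h1⟩
    refine ⟨![u, v, w], ?_, ?_⟩
    · intro hc
      rcases h0 with h0 | h0 | h0
      · exact h0 (congrFun hc 0)
      · exact h0 (congrFun hc 1)
      · exact h0 (congrFun hc 2)
    · rw [Fin.sum_univ_three]
      simp only [Matrix.cons_val_zero, Matrix.cons_val_one, Matrix.cons_val]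
      linear_combination h1

theorem solM_tail {K : Type} [Field K] {n : ℕ} (a : K) (C : Fin n → K) (h : SolM C) :
    SolM (Fin.cons a C : Fin (n + 1) → K) := by
  obtain ⟨u, h0, h1⟩ := h
  refine ⟨(Fin.cons 0 u : Fin (n + 1) → K), ?_, ?_⟩
  · intro hc
    apply h0
    funext l
    have := congrFun hc l.succ
    simpa using this
  · rw [Fin.sum_univ_succ]
    simp [h1]

theorem solM_first {K : Type} [Field K] {n : ℕ} (C : Fin (n + 3) → K)
    (h : Sol (C 0) (C 1) (-(C 2))) : SolM C := by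
  obtain ⟨u, v, w, h0, h1⟩ := h
  refine ⟨(Fin.cons u (Fin.cons v (Fin.cons w (fun _ => 0) : Fin (n + 1) → K) : Fin (n + 2) → K) :
    Fin (n + 3) → K), ?_, ?_⟩
  · intro hc
    rcases h0 with h0 | h0 | h0
    · exact h0 (by simpa using congrFun hc 0)
    · have h5 := congrFun hc (Fin.succ 0)
      rw [Fin.cons_succ, Fin.cons_zero] at h5
      exact h0 h5
    · have h5 := congrFun hc (Fin.succ (Fin.succ 0))
      rw [Fin.cons_succ, Fin.cons_succ, Fin.cons_zero] at h5
      exact h0 h5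
  · rw [Fin.sum_univ_succ, Fin.sum_univ_succ, Fin.sum_univ_succ]
    have e1 : (Fin.succ 0 : Fin (n + 3)) = 1 := rfl
    have e2 : (Fin.succ (Fin.succ 0) : Fin (n + 3)) = 2 := rfl
    simp only [Fin.cons_zero, Fin.cons_succ]
    rw [e1, e2]
    simp only [ne_eq, OfNat.ofNat_ne_zero, not_false_eq_true, zero_pow, mul_zero,
      Finset.sum_const_zero, add_zero]
    linear_combination h1

theorem comb {K : Type} [Field K] {n : ℕ} {a b t : K} {C : Fin n → K} (ht : t ≠ 0)
    (h1 : Sol a b t) (h2 : SolM (Fin.cons t C : Fin (n + 1) → K)) :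
    SolM (Fin.cons a (Fin.cons b C : Fin (n + 1) → K) : Fin (n + 2) → K) := by
  obtain ⟨x, y, s, h0, h3⟩ := h1
  obtain ⟨u, hu, h4⟩ := h2
  rw [Fin.sum_univ_succ] at h4
  simp only [Fin.cons_zero, Fin.cons_succ] at h4
  by_cases hz : u 0 = 0
  · apply solM_tail
    apply solM_tail
    refine ⟨fun l => u l.succ, ?_, ?_⟩
    · intro hc
      apply hu
      funext l
      refine Fin.cases ?_ (fun i => ?_) l
      · exact hz
      · exact congrFun hc i
    · rw [hz] at h4
      simpa using h4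
  · have hxy : x ≠ 0 ∨ y ≠ 0 := by
      by_contra hc
      push Not at hc
      rcases h0 with h0 | h0 | h0
      · exact h0 hc.1
      · exact h0 hc.2
      · rw [hc.1, hc.2] at h3
        have h5 : t * s ^ 2 = 0 := by rw [← h3]; ring
        rcases mul_eq_zero.1 h5 with h6 | h6
        · exact ht h6
        · exact h0 (pow_eq_zero_iff (by norm_num) |>.1 h6)
    refine ⟨(Fin.cons (x * u 0) (Fin.cons (y * u 0) (fun l => s * u l.succ) : Fin (n + 1) → K) :
      Fin (n + 2) → K), ?_, ?_⟩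
    · intro hc
      rcases hxy with h6 | h6
      · have := congrFun hc 0
        simp only [Fin.cons_zero, Pi.zero_apply] at this
        exact mul_ne_zero h6 hz this
      · have := congrFun hc (Fin.succ 0)
        simp only [Fin.cons_zero, Fin.cons_succ, Pi.zero_apply] at this
        exact mul_ne_zero h6 hz this
    · rw [Fin.sum_univ_succ, Fin.sum_univ_succ]
      simp only [Fin.cons_zero, Fin.cons_succ]
      have h7 : ∑ l, C l * (s * u l.succ) ^ 2 = s ^ 2 * ∑ l, C l * u l.succ ^ 2 := by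
        rw [Finset.mul_sum]
        apply Finset.sum_congr rfl
        intro l _
        ring
      rw [h7]
      linear_combination s ^ 2 * h4 + u 0 ^ 2 * h3

theorem step (h : S_TEX) (n : ℕ) (hn : 2 ≤ n) (a b : ℤ) (C : Fin n → ℤ) (ha : a ≠ 0) (hb : b ≠ 0)
    (hC : ∀ l, C l ≠ 0)
    (ih : 3 ≤ n → ∀ A : Fin (n + 1) → ℤ, (∀ l, A l ≠ 0) → SolM (fun l => (A l : ℝ)) →
      (∀ (p : ℕ) [Fact p.Prime], SolM (fun l => (A l : ℚ_[p]))) → SolM (fun l => (A l : ℚ)))
    (hR : SolM
      (fun l => (((Fin.cons a (Fin.cons b C : Fin (n + 1) → ℤ) : Fin (n + 2) → ℤ) l : ℤ) : ℝ)))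
    (hp : ∀ (p : ℕ) [Fact p.Prime], SolM
      (fun l => (((Fin.cons a (Fin.cons b C : Fin (n + 1) → ℤ) : Fin (n + 2) → ℤ) l : ℤ) : ℚ_[p]))) :
    SolM
      (fun l => (((Fin.cons a (Fin.cons b C : Fin (n + 1) → ℤ) : Fin (n + 2) → ℤ) l : ℤ) : ℚ)) := by
  obtain ⟨t, q, ht, hq, hq2, hqC, hs, hsM, hloc⟩ := h n a b C hn ha hb hC hR hp
  have hS : Sol (a : ℚ) (b : ℚ) (t : ℚ) :=
    sol_q a b t ha hb ht q hq hs (fun p _ hpq => (hloc p hpq).1)
  have htC : ∀ l, (Fin.cons t C : Fin (n + 1) → ℤ) l ≠ 0 := by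
    intro l
    refine Fin.cases ?_ (fun i => ?_) l
    · simpa using ht
    · simpa using hC i
  have hM : SolM (fun l => (((Fin.cons t C : Fin (n + 1) → ℤ) l : ℤ) : ℚ)) := by
    rcases Nat.lt_or_ge n 3 with h3 | h3
    · obtain rfl : n = 2 := by omega
      have e : ∀ (K : Type) [Field K],
          SolM (fun l => (((Fin.cons t C : Fin (2 + 1) → ℤ) l : ℤ) : K)) ↔
            Sol ((t : ℤ) : K) ((C 0 : ℤ) : K) (((-(C 1) : ℤ)) : K) := by
        intro K _
        rw [solM3]
        have e1 : (Fin.cons t C : Fin (2 + 1) → ℤ) 1 = C 0 := rfl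
        have e2 : (Fin.cons t C : Fin (2 + 1) → ℤ) 2 = C 1 := rfl
        rw [e1, e2]
        simp
      rw [e ℚ]
      apply sol_q t (C 0) (-(C 1)) ht (hC 0) (neg_ne_zero.2 (hC 1)) q hq
      · exact (e ℝ).1 hsM
      · intro p _ hpq
        exact (e ℚ_[p]).1 (hloc p hpq).2
    · apply ih h3 _ htC hsM
      intro p hpp
      by_cases hpq : p = q
      · subst hpq
        rw [cast_cons]
        apply solM_tail
        obtain ⟨k, rfl⟩ : ∃ k, n = k + 3 := ⟨n - 3, by omega⟩
        apply solM_first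
        have hnorm : ∀ l, ‖((C l : ℤ) : ℚ_[p])‖ = 1 := by
          intro l
          apply le_antisymm (Padic.norm_int_le_one _)
          rw [← not_lt, Padic.norm_intCast_lt_one_iff]
          exact hqC l
        exact Pool.Agent.N353.PN.un3_ p hq2 _ _ _ (hnorm 0) (hnorm 1) (by rw [norm_neg]; exact hnorm 2)
      · exact (hloc p hpq).2
  rw [cast_cons] at hM
  rw [cast_cons, cast_cons]
  exact comb (by exact_mod_cast ht) hS hM

theorem hmm_aux (h : S_TEX) : ∀ n : ℕ, 2 ≤ n → ∀ A : Fin (n + 2) → ℤ, (∀ l, A l ≠ 0) →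
    SolM (fun l => (A l : ℝ)) →
    (∀ (p : ℕ) [Fact p.Prime], SolM (fun l => (A l : ℚ_[p]))) → SolM (fun l => (A l : ℚ)) := by
  intro n
  induction n with
  | zero => intro h0; omega
  | succ n ih =>
    intro hn A hA hR hp
    have e : A = (Fin.cons (A 0) (Fin.cons (A 1) (fun l => A l.succ.succ) : Fin (n + 1 + 1) → ℤ) :
        Fin (n + 1 + 2) → ℤ) := by
      funext l
      refine Fin.cases ?_ (fun i => ?_) l
      · simp
      · refine Fin.cases ?_ (fun j => ?_) i
        · simp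
        · simp
    have := step h (n + 1) hn (A 0) (A 1) (fun l => A l.succ.succ) (hA _) (hA _) (fun l => hA _)
      (fun h3 => ih (by omega))
    rw [← e] at this
    exact this hR hp

theorem hmm_ (h : S_TEX) : S_HMM := by
  intro m hm
  obtain ⟨n, rfl⟩ : ∃ n, m = n + 2 := ⟨m - 2, by omega⟩
  exact hmm_aux h n (by omega)

end Pool.Agent.U113.DQ
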